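import Pool.Agent.N139.AS.Stm3

/-!
# Project AS: spectral projections of the lamps (part SPL)
-/

set_option autoImplicit false

namespace Pool.Agent.N286.AS

open Finset Matrix
open Pool.Agent.N139.AS

noncomputable section

/-! ### the elements `xl` -/

theorem lam_add_self (ν : Lam) : ν + ν = 0 := by
  ext k
  rw [Finsupp.add_apply, Finsupp.zero_apply]
  exact CharTwo.add_self_eq_zero _

theorem iter_add (q : ℕ) (ν μ : Lam) : shL^[q] (ν + μ) = shL^[q] ν + shL^[q] μ := by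
  induction q with
  | zero => rfl
  | succ q ih => rw [Function.iterate_succ_apply', Function.iterate_succ_apply',
      Function.iterate_succ_apply', ih, map_add]

theorem iter_zero (q : ℕ) : shL^[q] (0 : Lam) = 0 := by
  induction q with
  | zero => rfl
  | succ q ih => rw [Function.iterate_succ_apply', ih, map_zero]

theorem iter_apply (q : ℕ) (ν : Lam) (i : ℤ) : (shL^[q] ν) i = ν (i - q) := by
  induction q generalizing i with
  | zero => simp
  | succ q ih =>
    rw [Function.iterate_succ_apply', shL_apply, ih]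
    congr 1
    push_cast
    ring

theorem xl_add (p q : ℕ) (ν μ : Lam) : xl p q (ν + μ) = xl p q ν * xl p q μ := by
  ext1
  · show (0 : Lam →₀ ZMod p) = 0 + trl p _ 0
    rw [map_zero, add_zero]
  · show shL^[q] (ν + μ) + (ν + μ) = (shL^[q] ν + ν) + (shL^[q] μ + μ)
    rw [iter_add]
    abel

theorem xl_zero (p q : ℕ) : xl p q 0 = 1 := by
  ext1
  · rfl
  · show shL^[q] (0 : Lam) + 0 = 0
    rw [iter_zero, add_zero]

theorem xl_mem {p q : ℕ} {a b : ℤ} {ν : Lam} (h : InL a b ν) : xl p q ν ∈ WN p a (b + q) := by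
  refine ⟨?_, fun y hy => absurd rfl hy⟩
  intro i hi
  by_cases h1 : ν i = 0
  · have h2 : (shL^[q] ν + ν) i ≠ 0 := hi
    rw [Finsupp.add_apply, h1, add_zero, iter_apply] at h2
    have := h _ h2
    omega
  · have := h _ h1
    omega

theorem WN_mono {p : ℕ} {a b a' b' : ℤ} (h1 : a' ≤ a) (h2 : b ≤ b') {x : NN p} (hx : x ∈ WN p a b) :
    x ∈ WN p a' b' := by
  refine ⟨fun i hi => ?_, fun y hy i hi => ?_⟩
  · have := hx.1 i hi
    omega
  · have := hx.2 y hy i hi
    omega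

theorem sl_comm {p : ℕ} {x y : NN p} (hx : x ∈ SL p) (hy : y ∈ SL p) : x * y = y * x := by
  have h1 : x.a = 0 := hx
  have h2 : y.a = 0 := hy
  ext1
  · rw [NN.mul_a, NN.mul_a, h1, h2, map_zero, map_zero]
  · rw [NN.mul_l, NN.mul_l, add_comm]

theorem xl_sl (p q : ℕ) (ν : Lam) : xl p q ν ∈ SL p := rfl

theorem shN_xl (p q : ℕ) (ν : Lam) : shN p (xl p q ν) = xl p q (shL ν) := by
  ext1
  · show shA p 0 = 0
    rw [map_zero]
  · show shL (shL^[q] ν + ν) = shL^[q] (shL ν) + shL ν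
    rw [map_add, ← Function.iterate_succ_apply' (⇑shL) q ν, Function.iterate_succ_apply (⇑shL) q ν]

/-! ### the characters -/

/-- the character given by `β` -/
def ch (β : ℤ → ZMod 2) (ν : Lam) : ℂ := (ZMod.stdAddChar (ν.sum fun k c => c * β k) : ℂ)

theorem ch_add (β : ℤ → ZMod 2) (ν μ : Lam) : ch β (ν + μ) = ch β ν * ch β μ := by
  unfold ch
  rw [Finsupp.sum_add_index' (by intro k; rw [zero_mul]) (by intro k c c'; rw [add_mul]),
    AddChar.map_add_eq_mul]

theorem ch_zero (β : ℤ → ZMod 2) : ch β 0 = 1 := by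
  unfold ch
  rw [Finsupp.sum_zero_index, AddChar.map_zero_eq_one]

theorem ch_mul_self (β : ℤ → ZMod 2) (ν : Lam) : ch β ν * ch β ν = 1 := by
  rw [← ch_add, lam_add_self, ch_zero]

theorem ch_pm (β : ℤ → ZMod 2) (ν : Lam) : ch β ν = 1 ∨ ch β ν = -1 :=
  mul_self_eq_one_iff.1 (ch_mul_self β ν)

theorem ch_star (β : ℤ → ZMod 2) (ν : Lam) : star (ch β ν) = ch β ν := by
  rcases ch_pm β ν with h | h <;> rw [h] <;> simp

theorem ch_congr {β β' : ℤ → ZMod 2} {a b : ℤ} (h : ∀ k, a ≤ k → k < b → β k = β' k) {ν : Lam}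
    (hν : InL a b ν) : ch β ν = ch β' ν := by
  unfold ch
  congr 1
  refine Finsupp.sum_congr fun k hk => ?_
  have := hν k (Finsupp.mem_support_iff.1 hk)
  rw [h k this.1 this.2]

theorem std_one : (ZMod.stdAddChar (1 : ZMod 2) : ℂ) = -1 := by
  have h1 : (ZMod.stdAddChar (1 : ZMod 2) : ℂ) * ZMod.stdAddChar (1 : ZMod 2) = 1 := by
    rw [← AddChar.map_add_eq_mul]
    have : (1 : ZMod 2) + 1 = 0 := by decide
    rw [this, AddChar.map_zero_eq_one]
  rcases mul_self_eq_one_iff.1 h1 with h | h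
  · exfalso
    have h2 : (ZMod.stdAddChar (1 : ZMod 2) : ℂ) = ZMod.stdAddChar (0 : ZMod 2) := by
      rw [h, AddChar.map_zero_eq_one]
    exact absurd (ZMod.injective_stdAddChar h2) (by decide)
  · exact h

theorem ch_single (β : ℤ → ZMod 2) (k : ℤ) :
    ch β (Finsupp.single k 1) = ZMod.stdAddChar (β k) := by
  unfold ch
  rw [Finsupp.sum_single_index (by rw [zero_mul]), one_mul]

theorem ch_single_ne {β β' : ℤ → ZMod 2} {k : ℤ} (h : β k ≠ β' k) :
    ch β (Finsupp.single k 1) * ch β' (Finsupp.single k 1) = -1 := by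
  rw [ch_single, ch_single, ← AddChar.map_add_eq_mul]
  have : β k + β' k = 1 := by
    revert h
    generalize β k = u
    generalize β' k = v
    revert u v
    decide
  rw [this, std_one]

/-! ### the finite sets -/

theorem fin_InL (hO : S_OK) (a b : ℤ) : {ν : Lam | InL a b ν}.Finite := by
  haveI : Fact (Nat.Prime 2) := ⟨Nat.prime_two⟩
  have h1 : Finite (WN 2 a b) := (hO 2).fin a b
  have h2 : ((WN 2 a b : Subgroup (NN 2)) : Set (NN 2)).Finite := Set.toFinite _
  have h3 : {ν : Lam | InL a b ν} ⊆ (fun x : NN 2 => x.l) '' ((WN 2 a b : Subgroup (NN 2)) : Set (NN 2)) := by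
    intro ν hν
    exact ⟨⟨0, ν⟩, ⟨hν, fun y hy => absurd rfl hy⟩, rfl⟩
  exact (h2.image _).subset h3

/-- the finite set of the `ν` in the window -/
def Dn (hO : S_OK) (a b : ℤ) : Finset Lam := (fin_InL hO a b).toFinset

theorem mem_Dn (hO : S_OK) {a b : ℤ} {ν : Lam} : ν ∈ Dn hO a b ↔ InL a b ν := by
  unfold Dn
  rw [Set.Finite.mem_toFinset]
  rfl

theorem Dn_card (hO : S_OK) (a b : ℤ) : ((Dn hO a b).card : ℂ) ≠ 0 := by
  have : 0 < (Dn hO a b).card := Finset.card_pos.2 ⟨0, (mem_Dn hO).2 (InL.zero a b)⟩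
  exact_mod_cast this.ne'

theorem gg2_eq (hO : S_OK) (p q : ℕ) {d : ℕ} (α : NN p → UU d) (a b : ℤ) (β : ℤ → ZMod 2) :
    GG2 p q α a b β = (((Dn hO a b).card : ℂ)⁻¹) • ∑ ν ∈ Dn hO a b, ch β ν • (α (xl p q ν)).1 := by
  unfold GG2 ch
  rw [finsum_mem_eq_finite_toFinset_sum _ (fin_InL hO a b)]
  have h : Nat.card {ν : Lam | InL a b ν} = (Dn hO a b).card :=
    Nat.card_eq_card_finite_toFinset (fin_InL hO a b)
  rw [h]
  rfl

/-- translation of sums over the window -/
theorem sum_shift (hO : S_OK) {a b : ℤ} {M : Type} [AddCommMonoid M] (f : Lam → M) {μ : Lam}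
    (hμ : InL a b μ) : ∑ ν ∈ Dn hO a b, f (ν + μ) = ∑ ν ∈ Dn hO a b, f ν := by
  refine Finset.sum_nbij' (fun ν => ν + μ) (fun ν => ν + μ) ?_ ?_ ?_ ?_ ?_
  · intro ν hν
    rw [mem_Dn] at hν ⊢
    exact hν.add hμ
  · intro ν hν
    rw [mem_Dn] at hν ⊢
    exact hν.add hμ
  · intro ν _
    rw [add_assoc, lam_add_self, add_zero]
  · intro ν _
    rw [add_assoc, lam_add_self, add_zero]
  · intro ν _
    rfl

theorem sum_ch (hO : S_OK) {a b : ℤ} {β β' : ℤ → ZMod 2} (h : ∃ k, a ≤ k ∧ k < b ∧ β k ≠ β' k) :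
    ∑ ν ∈ Dn hO a b, ch β ν * ch β' ν = 0 := by
  obtain ⟨k, h1, h2, h3⟩ := h
  have hk : InL a b (Finsupp.single k 1) := by
    intro i hi
    have : k = i := by
      by_contra hne
      exact hi (Finsupp.single_eq_of_ne (Ne.symm hne))
    subst this
    exact ⟨h1, h2⟩
  have h4 := sum_shift hO (fun ν => ch β ν * ch β' ν) hk
  have h5 : ∑ ν ∈ Dn hO a b, ch β (ν + Finsupp.single k 1) * ch β' (ν + Finsupp.single k 1) =
      -∑ ν ∈ Dn hO a b, ch β ν * ch β' ν := by
    rw [← Finset.sum_neg_distrib]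
    refine Finset.sum_congr rfl fun ν _ => ?_
    rw [ch_add, ch_add]
    have := ch_single_ne h3
    linear_combination (ch β ν * ch β' ν) * this
  have h6 : -∑ ν ∈ Dn hO a b, ch β ν * ch β' ν = ∑ ν ∈ Dn hO a b, ch β ν * ch β' ν := by
    rw [← h5]
    exact h4
  exact self_eq_neg.1 h6.symm

section

variable {p q R d : ℕ} {α : NN p → UU d} {t : UU d} {a b : ℤ}

theorem U_add (hA : Act (SS p) R α t) (ha : -(R : ℤ) ≤ a) (hb : b + q ≤ R) {ν μ : Lam}
    (hν : InL a b ν) (hμ : InL a b μ) : (α (xl p q (ν + μ))).1 =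
      (α (xl p q ν)).1 * (α (xl p q μ)).1 := by
  rw [xl_add, hA.mul _ (WN_mono ha hb (xl_mem hν)) _ (WN_mono ha hb (xl_mem hμ))]
  rfl

theorem U_one (hA : Act (SS p) R α t) : α 1 = 1 := by
  have h := hA.mul 1 (one_mem _) 1 (one_mem _)
  rw [mul_one] at h
  exact (mul_eq_left.1 h.symm)

theorem U_star (hA : Act (SS p) R α t) (ha : -(R : ℤ) ≤ a) (hb : b + q ≤ R) {ν : Lam}
    (hν : InL a b ν) : ((α (xl p q ν)).1)ᴴ = (α (xl p q ν)).1 := by
  have h1 : α (xl p q ν) * α (xl p q ν) = 1 := by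
    rw [← hA.mul _ (WN_mono ha hb (xl_mem hν)) _ (WN_mono ha hb (xl_mem hν)), ← xl_add,
      lam_add_self, xl_zero, U_one hA]
  have h2 : (α (xl p q ν))⁻¹ = α (xl p q ν) := inv_eq_of_mul_eq_one_left h1
  have h3 : ((α (xl p q ν))⁻¹).1 = ((α (xl p q ν)).1)ᴴ := rfl
  rw [← h3, h2]

theorem U_gg2 (hO : S_OK) (hA : Act (SS p) R α t) (ha : -(R : ℤ) ≤ a) (hb : b + q ≤ R)
    (β : ℤ → ZMod 2) {ν : Lam} (hν : InL a b ν) :
    (α (xl p q ν)).1 * GG2 p q α a b β = ch β ν • GG2 p q α a b β := by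
  rw [gg2_eq hO, Matrix.mul_smul, smul_comm (ch β ν)]
  congr 1
  rw [Finset.mul_sum, Finset.smul_sum]
  rw [← sum_shift hO (fun μ => ch β ν • ch β μ • (α (xl p q μ)).1) hν]
  refine Finset.sum_congr rfl fun μ hμ => ?_
  rw [mem_Dn] at hμ
  rw [U_add hA ha hb hμ hν, Matrix.mul_smul, ch_add, smul_smul]
  have e1 : ch β ν * (ch β μ * ch β ν) = ch β μ := by
    linear_combination (ch β μ) * ch_mul_self β ν
  rw [e1]
  have e2 : (α (xl p q ν)).1 * (α (xl p q μ)).1 = (α (xl p q μ)).1 * (α (xl p q ν)).1 := by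
    rw [← U_add hA ha hb hμ hν, ← U_add hA ha hb hν hμ, add_comm]
  rw [e2]

theorem gg2_mul (hO : S_OK) (hA : Act (SS p) R α t) (ha : -(R : ℤ) ≤ a) (hb : b + q ≤ R)
    {a' b' : ℤ} (ha' : a ≤ a') (hb' : b' ≤ b) (β' β : ℤ → ZMod 2) :
    GG2 p q α a' b' β' * GG2 p q α a b β =
      open Classical in if ∀ k, a' ≤ k → k < b' → β k = β' k then GG2 p q α a b β else 0 := by
  have hin : ∀ ν, InL a' b' ν → InL a b ν := by
    intro ν hν i hi
    have := hν i hi
    omega
  have h1 : GG2 p q α a' b' β' * GG2 p q α a b β =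
      ((((Dn hO a' b').card : ℂ)⁻¹) * ∑ ν ∈ Dn hO a' b', ch β' ν * ch β ν) • GG2 p q α a b β := by
    conv_lhs => rw [gg2_eq hO p q α a' b' β']
    rw [Matrix.smul_mul, Finset.sum_mul, ← smul_smul, Finset.sum_smul]
    congr 1
    refine Finset.sum_congr rfl fun ν hν => ?_
    rw [mem_Dn] at hν
    rw [Matrix.smul_mul, U_gg2 hO hA ha hb β (hin ν hν), smul_smul]
  rw [h1]
  split_ifs with h
  · have h2 : ∑ ν ∈ Dn hO a' b', ch β' ν * ch β ν = (Dn hO a' b').card := by
      have h3 : ∀ ν ∈ Dn hO a' b', ch β' ν * ch β ν = 1 := by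
        intro ν hν
        rw [mem_Dn] at hν
        rw [ch_congr h hν, ch_mul_self]
      rw [Finset.sum_congr rfl h3]
      simp
    rw [h2, inv_mul_cancel₀ (Dn_card hO a' b'), one_smul]
  · push Not at h
    obtain ⟨k, h2, h3, h4⟩ := h
    rw [sum_ch hO ⟨k, h2, h3, h4.symm⟩, mul_zero, zero_smul]

theorem gg2_congr (hO : S_OK) {β β' : ℤ → ZMod 2} (h : ∀ k, a ≤ k → k < b → β k = β' k) :
    GG2 p q α a b β = GG2 p q α a b β' := by
  rw [gg2_eq hO, gg2_eq hO]
  congr 1
  refine Finset.sum_congr rfl fun ν hν => ?_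
  rw [mem_Dn] at hν
  rw [ch_congr h hν]

theorem gg2_isP (hO : S_OK) (hA : Act (SS p) R α t) (ha : -(R : ℤ) ≤ a) (hb : b + q ≤ R)
    (β : ℤ → ZMod 2) : IsP (GG2 p q α a b β) := by
  constructor
  · rw [gg2_eq hO]
    unfold Matrix.IsHermitian
    rw [Matrix.conjTranspose_smul, Matrix.conjTranspose_sum]
    congr 1
    · simp
    · refine Finset.sum_congr rfl fun ν hν => ?_
      rw [mem_Dn] at hν
      rw [Matrix.conjTranspose_smul, ch_star, U_star hA ha hb hν]
  · rw [gg2_mul hO hA ha hb le_rfl le_rfl β β, if_pos]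
    intro k _ _
    rfl

theorem gg2_comm (hO : S_OK) (hA : Act (SS p) R α t) (ha : -(R : ℤ) ≤ a) (hb : b + q ≤ R)
    (β : ℤ → ZMod 2) (x : NN p) (hx : x ∈ SL p) (hx' : x ∈ WN p (-R) R) :
    Commute (α x).1 (GG2 p q α a b β) := by
  rw [gg2_eq hO]
  apply Commute.smul_right
  apply Commute.sum_right
  intro ν hν
  rw [mem_Dn] at hν
  apply Commute.smul_right
  have h1 := WN_mono ha hb (xl_mem (p := p) (q := q) hν)
  have h2 : α x * α (xl p q ν) = α (xl p q ν) * α x := by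
    rw [← hA.mul _ hx' _ h1, ← hA.mul _ h1 _ hx', sl_comm hx (xl_sl p q ν)]
  exact congrArg Subtype.val h2

theorem InL_shL {a b : ℤ} {ν : Lam} : InL (a + 1) (b + 1) (shL ν) ↔ InL a b ν := by
  constructor
  · intro h i hi
    have := h (i + 1) (by rw [shL_apply, add_sub_cancel_right]; exact hi)
    omega
  · intro h i hi
    rw [shL_apply] at hi
    have := h _ hi
    omega

theorem ch_shL (β : ℤ → ZMod 2) (ν : Lam) : ch (fun k => β (k - 1)) (shL ν) = ch β ν := by
  unfold ch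
  congr 1
  show (Finsupp.equivMapDomain (Equiv.addRight (1 : ℤ)) ν).sum _ = _
  rw [Finsupp.sum_equivMapDomain]
  refine Finsupp.sum_congr fun k _ => ?_
  simp

theorem gg2_shift (hO : S_OK) (hA : Act (SS p) R α t) (ha : -(R : ℤ) ≤ a) (hb : b + q < R)
    (β : ℤ → ZMod 2) : t.1 * GG2 p q α a b β =
      GG2 p q α (a + 1) (b + 1) (fun k => β (k - 1)) * t.1 := by
  have hsum : ∀ (M : Type) [AddCommMonoid M] (f : Lam → M),
      ∑ ν ∈ Dn hO (a + 1) (b + 1), f ν = ∑ ν ∈ Dn hO a b, f (shL ν) := by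
    intro M _ f
    refine Finset.sum_nbij' (fun ν => shL.symm ν) (fun ν => shL ν) ?_ ?_ ?_ ?_ ?_
    · intro ν hν
      rw [mem_Dn] at hν ⊢
      rw [← InL_shL, AddEquiv.apply_symm_apply]
      exact hν
    · intro ν hν
      rw [mem_Dn] at hν ⊢
      exact InL_shL.2 hν
    · intro ν _
      exact AddEquiv.apply_symm_apply _ _
    · intro ν _
      exact AddEquiv.symm_apply_apply _ _
    · intro ν _
      rw [AddEquiv.apply_symm_apply]
  have hcard : (Dn hO (a + 1) (b + 1)).card = (Dn hO a b).card := by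
    have := hsum ℕ (fun _ => 1)
    simpa using this
  rw [gg2_eq hO, gg2_eq hO, hcard, hsum, Matrix.mul_smul, Matrix.smul_mul, Finset.mul_sum,
    Finset.sum_mul]
  congr 1
  refine Finset.sum_congr rfl fun ν hν => ?_
  rw [mem_Dn] at hν
  rw [ch_shL, Matrix.mul_smul, Matrix.smul_mul]
  congr 1
  have h1 : xl p q ν ∈ WN p (-R) (R - 1) := WN_mono ha (by omega) (xl_mem hν)
  have h2 := hA.rel _ h1
  have h3 : (SS p).σ (xl p q ν) = xl p q (shL ν) := shN_xl p q ν
  rw [h3] at h2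
  exact congrArg Subtype.val h2

end

/-! ### completeness -/

/-- the finitely supported function with the values of `β` in the window -/
def mkL (a b : ℤ) (β : {k : ℤ // a ≤ k ∧ k < b} → ZMod 2) : Lam :=
  Finsupp.onFinset (Finset.Ico a b) (ex2 a b β) (by
    intro k hk
    rw [Finset.mem_Ico]
    by_contra h
    apply hk
    unfold ex2
    rw [dif_neg h])

theorem card_eq (hO : S_OK) (a b : ℤ) [Fintype {k : ℤ // a ≤ k ∧ k < b}]
    [DecidableEq {k : ℤ // a ≤ k ∧ k < b}] :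
    (Dn hO a b).card = Fintype.card ({k : ℤ // a ≤ k ∧ k < b} → ZMod 2) := by
  rw [← Finset.card_univ]
  refine Finset.card_nbij' (fun ν k => ν k.1) (fun β => mkL a b β) ?_ ?_ ?_ ?_
  · intro ν _
    exact Finset.mem_coe.2 (Finset.mem_univ _)
  · intro β _
    rw [Finset.mem_coe, mem_Dn]
    intro i hi
    by_contra h
    apply hi
    show ex2 a b β i = 0
    unfold ex2
    rw [dif_neg h]
  · intro ν hν
    rw [Finset.mem_coe, mem_Dn] at hν
    ext i
    show ex2 a b (fun k => ν k.1) i = ν i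
    unfold ex2
    split_ifs with h
    · rfl
    · by_contra h2
      exact h (hν i (Ne.symm h2))
  · intro β _
    funext k
    show ex2 a b β k.1 = β k
    unfold ex2
    rw [dif_pos k.2]

theorem sum_ch_beta (a b : ℤ) [Fintype {k : ℤ // a ≤ k ∧ k < b}]
    [DecidableEq {k : ℤ // a ≤ k ∧ k < b}] {ν : Lam} (hν : InL a b ν) (h0 : ν ≠ 0) :
    ∑ β : {k : ℤ // a ≤ k ∧ k < b} → ZMod 2, ch (ex2 a b β) ν = 0 := by
  obtain ⟨k, hk⟩ : ∃ k, ν k ≠ 0 := by
    by_contra h
    push Not at h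
    exact h0 (Finsupp.ext h)
  have hk2 : ν k = 1 := by
    revert hk
    generalize ν k = u
    revert u
    decide
  set K : {k : ℤ // a ≤ k ∧ k < b} := ⟨k, hν k hk⟩ with hK
  have h1 : ∑ β : {k : ℤ // a ≤ k ∧ k < b} → ZMod 2, ch (ex2 a b (β + Pi.single K 1)) ν =
      ∑ β : {k : ℤ // a ≤ k ∧ k < b} → ZMod 2, ch (ex2 a b β) ν :=
    Fintype.sum_equiv (Equiv.addRight (Pi.single K 1)) _ _ (fun _ => rfl)
  have h2 : ∀ β : {k : ℤ // a ≤ k ∧ k < b} → ZMod 2,
      ch (ex2 a b (β + Pi.single K 1)) ν = -ch (ex2 a b β) ν := by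
    intro β
    have h3 : (ν.sum fun i c => c * ex2 a b (β + Pi.single K 1) i) =
        (ν.sum fun i c => c * ex2 a b β i) + 1 := by
      have h4 : ∀ i, ex2 a b (β + Pi.single K 1) i = ex2 a b β i + (if i = k then 1 else 0) := by
        intro i
        unfold ex2
        by_cases h : a ≤ i ∧ i < b
        · rw [dif_pos h, dif_pos h, Pi.add_apply]
          congr 1
          by_cases hik : i = k
          · subst hik
            rw [if_pos rfl]
            exact Pi.single_eq_same _ _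
          · rw [if_neg hik, Pi.single_eq_of_ne]
            intro h5
            exact hik (congrArg Subtype.val h5)
        · rw [dif_neg h, dif_neg h, if_neg, add_zero]
          rintro rfl
          exact h (hν _ hk)
      have h5 : (ν.sum fun i c => c * ex2 a b (β + Pi.single K 1) i) =
          ν.sum fun i c => (c * ex2 a b β i + c * (if i = k then 1 else 0)) := by
        refine Finsupp.sum_congr fun i _ => ?_
        rw [h4 i, mul_add]
      rw [h5, Finsupp.sum_add]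
      congr 1
      rw [Finsupp.sum, Finset.sum_eq_single k]
      · rw [if_pos rfl, hk2, mul_one]
      · intro i _ hik
        rw [if_neg hik, mul_zero]
      · intro h6
        exact absurd (Finsupp.notMem_support_iff.1 h6) hk
    unfold ch
    rw [h3, AddChar.map_add_eq_mul, std_one, mul_neg_one]
  rw [Finset.sum_congr rfl (fun β _ => h2 β), Finset.sum_neg_distrib] at h1
  exact self_eq_neg.1 h1.symm

theorem gg2_sum (hO : S_OK) {p q R d : ℕ} {α : NN p → UU d} {t : UU d} (a b : ℤ)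
    (hA : Act (SS p) R α t) [Fintype {k : ℤ // a ≤ k ∧ k < b}]
    [DecidableEq {k : ℤ // a ≤ k ∧ k < b}] :
    ∑ β : {k : ℤ // a ≤ k ∧ k < b} → ZMod 2, GG2 p q α a b (ex2 a b β) = 1 := by
  have h1 : ∀ β : {k : ℤ // a ≤ k ∧ k < b} → ZMod 2, GG2 p q α a b (ex2 a b β) =
      (((Dn hO a b).card : ℂ)⁻¹) • ∑ ν ∈ Dn hO a b, ch (ex2 a b β) ν • (α (xl p q ν)).1 :=
    fun β => gg2_eq hO p q α a b _
  rw [Finset.sum_congr rfl (fun β _ => h1 β), ← Finset.smul_sum, Finset.sum_comm]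
  have h2 : ∀ ν ∈ Dn hO a b, ∑ β : {k : ℤ // a ≤ k ∧ k < b} → ZMod 2,
      ch (ex2 a b β) ν • (α (xl p q ν)).1 =
      if ν = 0 then ((Dn hO a b).card : ℂ) • (1 : Mt d) else 0 := by
    intro ν hν
    rw [mem_Dn] at hν
    rw [← Finset.sum_smul]
    by_cases h0 : ν = 0
    · rw [if_pos h0, h0, xl_zero, U_one hA]
      congr 1
      have h3 : ∀ β : {k : ℤ // a ≤ k ∧ k < b} → ZMod 2, ch (ex2 a b β) 0 = 1 :=
        fun β => ch_zero _
      rw [Finset.sum_congr rfl (fun β _ => h3 β), Finset.sum_const, Finset.card_univ,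
        ← card_eq hO a b, nsmul_eq_mul, mul_one]
    · rw [if_neg h0, sum_ch_beta a b hν h0, zero_smul]
  rw [Finset.sum_congr rfl h2, Finset.sum_ite_eq' (Dn hO a b) 0, if_pos ((mem_Dn hO).2 (InL.zero a b)),
    smul_smul, inv_mul_cancel₀ (Dn_card hO a b), one_smul]

/-- Part SPL. -/
theorem t_SPL (hO : S_OK) : S_SPL := by
  intro p q _ R d α t hA a b ha hab hb
  refine ⟨gg2_isP hO hA ha hb, fun β β' h => gg2_congr hO h, ?_, ?_, gg2_comm hO hA ha hb, ?_, ?_⟩
  · intro β β' h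
    rw [gg2_mul hO hA ha hb le_rfl le_rfl β β', if_neg]
    intro h2
    obtain ⟨k, h3, h4, h5⟩ := h
    exact h5 (h2 k h3 h4).symm
  · intro β ν hν
    exact U_gg2 hO hA ha hb β hν
  · intro β hb'
    exact gg2_shift hO hA ha hb' β
  · intro _
    classical
    refine ⟨?_, ?_⟩
    · convert gg2_sum hO a b hA
    · intro a' b' β' h1 h2 h3
      have h4 := gg2_sum (q := q) hO a b hA
      calc GG2 p q α a' b' β' = GG2 p q α a' b' β' * 1 := (mul_one _).symm
        _ = GG2 p q α a' b' β' * ∑ β : {k : ℤ // a ≤ k ∧ k < b} → ZMod 2,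
            GG2 p q α a b (ex2 a b β) := by rw [h4]
        _ = _ := by
          rw [Finset.mul_sum]
          have h5 : ∀ β : {k : ℤ // a ≤ k ∧ k < b} → ZMod 2,
              GG2 p q α a' b' β' * GG2 p q α a b (ex2 a b β) =
              if ∀ k, a' ≤ k → k < b' → ex2 a b β k = β' k then GG2 p q α a b (ex2 a b β)
                else 0 := by
            intro β
            rw [gg2_mul hO hA ha hb h1 h3 β' (ex2 a b β)]
          rw [Finset.sum_congr rfl (fun β _ => h5 β)]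

end

end Pool.Agent.N286.AS
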